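import Pool.Agent.H65.CV.L2

/-!
# Module KL: d-linear orthogonality (board cv_modules of helper11, MP_e21eee_nt)
-/

set_option autoImplicit false

open Finset Polynomial
open scoped ComplexConjugate

namespace Pool.Agent.H65.CV

open Pool.Agent.H11.CV

lemma ee_zero' (hEX : T_EX) (M : ℕ) : ee M 0 = 1 := by
  obtain ⟨hn, ee_add, _⟩ := hEX
  have h := ee_add M 0 0
  rw [add_zero] at h
  have h0 : ee M 0 ≠ 0 := by
    intro h0
    have := hn M 0
    rw [h0, norm_zero] at this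
    exact zero_ne_one this
  have h2 : ee M 0 * 1 = ee M 0 * ee M 0 := by rw [mul_one]; exact h
  exact (mul_left_cancel₀ h0 h2).symm

lemma ee_sum' (hEX : T_EX) (M : ℕ) {ι : Type} (s : Finset ι) (f : ι → ℤ) :
    ee M (∑ i ∈ s, f i) = ∏ i ∈ s, ee M (f i) := by
  classical
  induction s using Finset.induction_on with
  | empty => simp [ee_zero' hEX]
  | insert a s ha ih => rw [Finset.sum_insert ha, Finset.prod_insert ha, hEX.2.1, ih]

theorem kl (hEX : T_EX) (hCB : T_CB) (hRS : T_RS) (hPS : T_PS) : T_KL := by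
  classical
  intro p d m a G _ _ τ F w c hp hdp ha ham hF hc hcinj hw
  have hcb := (hCB p d m G τ hp.one_lt).2.2.2.2
  have hrs := (hRS p a 0 hp.one_lt).2.2.1
  let A : Fin d → Finset ℕ := fun i => (range (p ^ a)).filter (fun x => x % p = c i)
  have hA : ∀ i x, x ∈ A i ↔ x < p ^ a ∧ x % p = c i := by
    intro i x
    simp only [A, Finset.mem_filter, Finset.mem_range]
  have e1 : ∀ g, ∏ i, ‖clsum p a F (c i) g‖ ^ 2
      = ‖∑ ξ ∈ Fintype.piFinset A, ∏ i, F (ξ i) g‖ ^ 2 := by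
    intro g
    have h := Finset.prod_univ_sum A (fun _ x => F x g)
    rw [Finset.prod_pow, ← norm_prod, ← h]
    rfl
  have e2 : ∀ g, ∏ i, ∑ ξ ∈ (range (p ^ a)).filter (fun ξ => ξ % p = c i), ‖F ξ g‖ ^ 2
      = ∑ ξ ∈ Fintype.piFinset A, ‖∏ i, F (ξ i) g‖ ^ 2 := by
    intro g
    have := Finset.prod_univ_sum A (fun _ x => ‖F x g‖ ^ 2)
    rw [show (∏ i, ∑ ξ ∈ (range (p ^ a)).filter (fun ξ => ξ % p = c i), ‖F ξ g‖ ^ 2)
      = ∏ i, ∑ x ∈ A i, ‖F x g‖ ^ 2 from rfl, this]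
    apply Finset.sum_congr rfl
    intro ξ _
    rw [norm_prod, Finset.prod_pow]
  simp only [e1, e2]
  rw [pyth]
  · rw [Finset.sum_comm]
    apply Finset.sum_congr rfl
    intro g _
    rw [Finset.mul_sum]
  · intro ξ hξ ξ' hξ' hne
    rw [Fintype.mem_piFinset] at hξ hξ'
    -- some power sum differs
    have hex : ∃ j : ℕ, 1 ≤ j ∧ j ≤ d ∧
        ¬ (p : ℤ) ^ a ∣ ∑ i, ((ξ i : ℕ) : ℤ) ^ j - ∑ i, ((ξ' i : ℕ) : ℤ) ^ j := by
      by_contra hcon
      push Not at hcon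
      apply hne
      have hdvd : ∀ i, (p : ℤ) ^ a ∣ ((ξ i : ℕ) : ℤ) - ((ξ' i : ℕ) : ℤ) := by
        refine hPS p d a (fun i => (ξ i : ℤ)) (fun i => (ξ' i : ℤ)) hp hdp ?_ ?_ hcon
        · intro i
          have h1 := ((hA i _).mp (hξ i)).2
          have h2 := ((hA i _).mp (hξ' i)).2
          have h3 : ξ' i ≡ ξ i [MOD p] := h2.trans h1.symm
          exact (Nat.modEq_iff_dvd.mp h3)
        · intro i j hij hd
          have h1 := ((hA i _).mp (hξ i)).2
          have h2 := ((hA j _).mp (hξ j)).2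
          have h3 : ξ j ≡ ξ i [MOD p] := Nat.modEq_iff_dvd.mpr hd
          have h4 : c i = c j := by
            rw [← h1, ← h2]
            exact h3.symm
          exact hij (hcinj h4)
      funext i
      exact hrs (ξ i) (ξ' i) ((hA i _).mp (hξ i)).1 ((hA i _).mp (hξ' i)).1 (hdvd i)
    obtain ⟨j, hj1, hjd, hj⟩ := hex
    have hdeg : (X ^ j : ℤ[X]).natDegree ≤ d := by
      rw [natDegree_X_pow]; exact hjd
    have hshift : ∀ ζ : Fin d → ℕ, (∀ i, ζ i ∈ A i) → ∀ g,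
        ∏ i, F (ζ i) (g + τ (C ((p : ℤ) ^ (m - a)) * X ^ j))
          = ee (p ^ a) (∑ i, ((ζ i : ℕ) : ℤ) ^ j) * ∏ i, F (ζ i) g := by
      intro ζ hζ g
      rw [ee_sum' hEX, ← Finset.prod_mul_distrib]
      apply Finset.prod_congr rfl
      intro i _
      have := hcb a a ((ζ i : ℕ) : ℤ) (X ^ j) (F (ζ i)) le_rfl ham hdeg
        (hF (ζ i) ((hA i _).mp (hζ i)).1) g
      rw [eval_pow, eval_X] at this
      exact this
    refine ortho_of_eig hEX (p ^ a) (pow_pos hp.pos a) _ _ (τ (C ((p : ℤ) ^ (m - a)) * X ^ j))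
      (fun g => ∏ i, F (ξ i) g) (fun g => ∏ i, F (ξ' i) g) w
      (hshift ξ hξ) (hshift ξ' hξ') (fun g => hw (X ^ j) g hdeg) ?_
    push_cast
    exact hj

end Pool.Agent.H65.CV
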