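import Pool.Agent.H11.CV.Targets

/-!
# Module L2: weighted orthogonality (board cv_modules of helper11, MP_e21eee_nt)
-/

set_option autoImplicit false

open Finset Polynomial
open scoped ComplexConjugate

namespace Pool.Agent.H65.CV

open Pool.Agent.H11.CV

/-- orthogonality from two different eigenvalues of a translation -/
lemma ortho_of_eig (hEX : T_EX) {G : Type} [AddCommGroup G] [Fintype G] (M : ℕ) (hM : 0 < M)
    (A B : ℤ) (v : G) (Φ Ψ : G → ℂ) (w : G → ℝ) (hΦ : ∀ g, Φ (g + v) = ee M A * Φ g)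
    (hΨ : ∀ g, Ψ (g + v) = ee M B * Ψ g) (hw : ∀ g, w (g + v) = w g) (hAB : ¬ (M : ℤ) ∣ A - B) :
    ∑ g, (w g : ℂ) * (Φ g * conj (Ψ g)) = 0 := by
  obtain ⟨_, ee_add, _, ee_one, ee_conj, _, _⟩ := hEX
  have h1 : ∑ g, (w g : ℂ) * (Φ g * conj (Ψ g))
      = ee M (A - B) * ∑ g, (w g : ℂ) * (Φ g * conj (Ψ g)) := by
    calc ∑ g, (w g : ℂ) * (Φ g * conj (Ψ g))
        = ∑ g, (w (g + v) : ℂ) * (Φ (g + v) * conj (Ψ (g + v))) :=
          (Equiv.sum_comp (Equiv.addRight v) (fun g => (w g : ℂ) * (Φ g * conj (Ψ g)))).symm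
      _ = ee M (A - B) * ∑ g, (w g : ℂ) * (Φ g * conj (Ψ g)) := by
          rw [Finset.mul_sum]
          apply Finset.sum_congr rfl
          intro g _
          rw [hw, hΦ, hΨ, map_mul, ee_conj, sub_eq_add_neg, ee_add]
          ring
  have h2 : ee M (A - B) ≠ 1 := fun h => hAB (ee_one M (A - B) hM h)
  have h3 : (1 - ee M (A - B)) * ∑ g, (w g : ℂ) * (Φ g * conj (Ψ g)) = 0 := by
    rw [sub_mul, one_mul, ← h1, sub_self]
  rcases mul_eq_zero.mp h3 with h | h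
  · exact absurd (sub_eq_zero.mp h).symm h2
  · exact h

/-- Pythagoras with a weight -/
lemma pyth {G : Type} [Fintype G] {ι : Type} [DecidableEq ι] (T : Finset ι) (Φ : ι → G → ℂ)
    (w : G → ℝ)
    (h : ∀ i ∈ T, ∀ j ∈ T, i ≠ j → ∑ g, (w g : ℂ) * (Φ i g * conj (Φ j g)) = 0) :
    ∑ g, w g * ‖∑ i ∈ T, Φ i g‖ ^ 2 = ∑ i ∈ T, ∑ g, w g * ‖Φ i g‖ ^ 2 := by
  have hc : ((∑ g, w g * ‖∑ i ∈ T, Φ i g‖ ^ 2 : ℝ) : ℂ)
      = ((∑ i ∈ T, ∑ g, w g * ‖Φ i g‖ ^ 2 : ℝ) : ℂ) := by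
    push_cast
    have e1 : ∀ g, (w g : ℂ) * (‖∑ i ∈ T, Φ i g‖ : ℂ) ^ 2
        = ∑ i ∈ T, ∑ j ∈ T, (w g : ℂ) * (Φ i g * conj (Φ j g)) := by
      intro g
      rw [← Complex.mul_conj', map_sum, Finset.sum_mul_sum, Finset.mul_sum]
      apply Finset.sum_congr rfl
      intro i _
      rw [Finset.mul_sum]
    rw [Finset.sum_congr rfl (fun g _ => e1 g), Finset.sum_comm]
    apply Finset.sum_congr rfl
    intro i hi
    rw [Finset.sum_comm, Finset.sum_eq_single_of_mem i hi]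
    · apply Finset.sum_congr rfl
      intro g _
      rw [Complex.mul_conj']
    · intro j hj hji
      exact h i hi j hj (Ne.symm hji)
  exact_mod_cast hc

theorem l2 (hEX : T_EX) (hCB : T_CB) : T_L2 := by
  intro p d m b G _ _ τ S x u w hp hd hbm hcls hne hw
  have hcb := (hCB p d m G τ hp).2.2.2.2
  set v := τ (C ((p : ℤ) ^ (m - b)) * X) with hv
  have hu : ∀ i ∈ S, ∀ g, u i (g + v) = ee (p ^ b) (x i) * u i g := by
    intro i hi g
    have := hcb b b (x i) X (u i) le_rfl hbm (natDegree_X_le.trans hd) (hcls i hi) g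
    rw [eval_X] at this
    exact this
  apply pyth
  intro i hi j hj hij
  refine ortho_of_eig hEX (p ^ b) (pow_pos (by omega) b) (x i) (x j) v (u i) (u j) w
    (hu i hi) (hu j hj) hw ?_
  push_cast
  exact hne i hi j hj hij

end Pool.Agent.H65.CV
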