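import Pool.Agent.H11.CV.Targets

/-!
# Module LM: truncated moments from level sets (board cv_modules of helper11, MP_e21eee_nt)
-/

set_option autoImplicit false

open Finset Polynomial

namespace Pool.Agent.H65.CV

open Pool.Agent.H11.CV

lemma KK_pos {d : ℕ} (hd : 1 ≤ d) : 1 ≤ KK d := by
  unfold KK
  have h : 2 ≤ d * (d + 1) := by nlinarith
  omega

/-- energy identity for a family -/
lemma sum_sq_eq_En (hL2 : T_L2) (hRS : T_RS) {p d n : ℕ} (hp : 1 < p) (hd : 1 ≤ d) (G : Type)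
    [AddCommGroup G] [Fintype G] (τ : ℤ[X] →+ G) (f : ℕ → G → ℂ) (hf : Fam p d n τ f) :
    ∑ g, ‖∑ x ∈ range (p ^ n), f x g‖ ^ 2 = En p n f := by
  have hrs := (hRS p n 0 hp).2.2.1
  have h := hL2 p d (d * n) n G τ (range (p ^ n)) (fun x => (x : ℤ)) f (fun _ => 1) hp hd
    (Nat.le_mul_of_pos_left n hd)
    (fun i hi => hf i (Finset.mem_range.mp hi))
    (fun i hi j hj hij hdvd => hij (hrs i j (Finset.mem_range.mp hi) (Finset.mem_range.mp hj) hdvd))
    (fun _ => rfl)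
  simp only [one_mul] at h
  exact h

lemma norm_sum_le_of_bd {p n : ℕ} {G : Type} (f : ℕ → G → ℂ) (hf : Bd p n f) (g : G) :
    ‖∑ x ∈ range (p ^ n), f x g‖ ≤ (p : ℝ) ^ n := by
  calc ‖∑ x ∈ range (p ^ n), f x g‖ ≤ ∑ x ∈ range (p ^ n), ‖f x g‖ := norm_sum_le _ _
    _ ≤ ∑ _x ∈ range (p ^ n), (1 : ℝ) :=
        Finset.sum_le_sum (fun x hx => hf x (Finset.mem_range.mp hx) g)
    _ = (p : ℝ) ^ n := by
        rw [Finset.sum_const, Finset.card_range, nsmul_eq_mul, mul_one]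
        push_cast
        rfl

theorem lm (hL2 : T_L2) (hRS : T_RS) : T_LM := by
  classical
  intro p d r hp hd hr
  set K := KK d with hK
  have hK1 : 1 ≤ K := KK_pos hd
  set L := Nat.log 2 p with hL
  refine ⟨1 + ((L : ℝ) + 1) * 2 ^ (2 * r), ?_, ?_⟩
  · have : (0 : ℝ) ≤ ((L : ℝ) + 1) * 2 ^ (2 * r) := by positivity
    linarith
  intro n D lam G _ _ τ f hD hLev hlam hF hB
  set S : G → ℝ := fun g => ‖∑ x ∈ range (p ^ n), f x g‖ with hS
  have hS0 : ∀ g, 0 ≤ S g := fun g => norm_nonneg _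
  have hSle : ∀ g, S g ≤ (p : ℝ) ^ n := fun g => norm_sum_le_of_bd f hB g
  have hE : ∑ g, S g ^ 2 = En p n f := sum_sq_eq_En hL2 hRS hp hd G τ f hF
  have hE0 : 0 ≤ En p n f := by rw [← hE]; positivity
  set J := (L + 1) * n + 1 with hJ
  have hpJ : (p : ℝ) ^ n < 2 ^ J := by
    have h1 : p < 2 ^ (L + 1) := Nat.lt_pow_succ_log_self (by norm_num) p
    have h2 : p ^ n ≤ (2 ^ (L + 1)) ^ n := Nat.pow_le_pow_left h1.le n
    have h3 : (2 ^ (L + 1)) ^ n < 2 ^ J := by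
      rw [← pow_mul, hJ]
      exact Nat.pow_lt_pow_right (by norm_num) (Nat.lt_succ_self _)
    exact_mod_cast lt_of_le_of_lt h2 h3
  -- pointwise bound
  have hpt : ∀ g, (if S g ≤ lam then S g ^ (2 * r) else 0) ≤ S g ^ 2
      + ∑ i ∈ range J, (if (2 : ℝ) ^ i ≤ lam then
          (if (2 : ℝ) ^ i ≤ S g then ((2 : ℝ) ^ (i + 1)) ^ (2 * r) else 0) else 0) := by
    intro g
    have hsum0 : ∀ i, (0 : ℝ) ≤ (if (2 : ℝ) ^ i ≤ lam then
          (if (2 : ℝ) ^ i ≤ S g then ((2 : ℝ) ^ (i + 1)) ^ (2 * r) else 0) else 0) := by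
      intro i
      split_ifs <;> positivity
    by_cases h1 : S g ≤ lam
    · rw [if_pos h1]
      by_cases h2 : S g < 1
      · have h3 : S g ^ (2 * r) ≤ S g ^ 2 :=
          pow_le_pow_of_le_one (hS0 g) h2.le (by omega)
        have h4 := Finset.sum_nonneg (fun i (_ : i ∈ range J) => hsum0 i)
        linarith
      · push Not at h2
        -- the dyadic scale
        have hex : ∃ i : ℕ, (2 : ℝ) ^ i ≤ S g ∧ S g < 2 ^ (i + 1) :=
          exists_nat_pow_near h2 (by norm_num)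
        obtain ⟨i, hi1, hi2⟩ := hex
        have hiJ : i < J := by
          by_contra hcon
          push Not at hcon
          have h5 : (2 : ℝ) ^ J ≤ 2 ^ i := pow_le_pow_right₀ (by norm_num) hcon
          have h6 := hSle g
          linarith
        have h7 : S g ^ (2 * r) ≤ ((2 : ℝ) ^ (i + 1)) ^ (2 * r) :=
          pow_le_pow_left₀ (hS0 g) hi2.le _
        have h8 := Finset.single_le_sum (f := fun i => (if (2 : ℝ) ^ i ≤ lam then
          (if (2 : ℝ) ^ i ≤ S g then ((2 : ℝ) ^ (i + 1)) ^ (2 * r) else 0) else 0))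
          (fun i _ => hsum0 i) (Finset.mem_range.mpr hiJ)
        rw [if_pos (hi1.trans h1), if_pos hi1] at h8
        have h9 : 0 ≤ S g ^ 2 := by positivity
        linarith
    · rw [if_neg h1]
      have h4 := Finset.sum_nonneg (fun i (_ : i ∈ range J) => hsum0 i)
      have h9 : 0 ≤ S g ^ 2 := by positivity
      linarith
  set B : ℝ := D * (p : ℝ) ^ (n * (K - 1)) * lam ^ (2 * r - 2 * K) * En p n f with hBdef
  have hlamp : 1 ≤ lam ^ (2 * r - 2 * K) := one_le_pow₀ hlam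
  have hpp : (1 : ℝ) ≤ (p : ℝ) ^ (n * (K - 1)) := one_le_pow₀ (by exact_mod_cast hp.le)
  have hB0 : 0 ≤ B := by
    rw [hBdef]; positivity
  have hEB : En p n f ≤ B := by
    rw [hBdef]
    have h1 : 1 ≤ D * (p : ℝ) ^ (n * (K - 1)) * lam ^ (2 * r - 2 * K) := by
      have : 1 ≤ D * (p : ℝ) ^ (n * (K - 1)) := one_le_mul_of_one_le_of_one_le hD hpp
      exact one_le_mul_of_one_le_of_one_le this hlamp
    exact le_mul_of_one_le_left hE0 h1
  -- each dyadic level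
  have hlev : ∀ i : ℕ, ∑ g, (if (2 : ℝ) ^ i ≤ lam then
          (if (2 : ℝ) ^ i ≤ S g then ((2 : ℝ) ^ (i + 1)) ^ (2 * r) else 0) else 0)
          ≤ 2 ^ (2 * r) * B := by
    intro i
    by_cases h1 : (2 : ℝ) ^ i ≤ lam
    · simp only [if_pos h1]
      have hc : ∑ g, (if (2 : ℝ) ^ i ≤ S g then ((2 : ℝ) ^ (i + 1)) ^ (2 * r) else 0)
          = cnt {g : G | (2 : ℝ) ^ i ≤ S g} * ((2 : ℝ) ^ (i + 1)) ^ (2 * r) := by
        rw [← Finset.sum_filter, Finset.sum_const, nsmul_eq_mul]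
        unfold cnt
        congr 2
      rw [hc]
      have hl := hLev G τ f hF hB ((2 : ℝ) ^ i) (by positivity)
      have e1 : ((2 : ℝ) ^ (i + 1)) ^ (2 * r)
          = 2 ^ (2 * r) * (((2 : ℝ) ^ i) ^ (2 * K) * ((2 : ℝ) ^ i) ^ (2 * r - 2 * K)) := by
        rw [← pow_add, Nat.add_sub_cancel' (by omega), pow_succ, mul_pow]
        ring
      rw [e1]
      have h2 : ((2 : ℝ) ^ i) ^ (2 * r - 2 * K) ≤ lam ^ (2 * r - 2 * K) :=
        pow_le_pow_left₀ (by positivity) h1 _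
      calc cnt {g : G | (2 : ℝ) ^ i ≤ S g}
            * (2 ^ (2 * r) * (((2 : ℝ) ^ i) ^ (2 * K) * ((2 : ℝ) ^ i) ^ (2 * r - 2 * K)))
          = 2 ^ (2 * r) * ((cnt {g : G | (2 : ℝ) ^ i ≤ S g} * ((2 : ℝ) ^ i) ^ (2 * K))
            * ((2 : ℝ) ^ i) ^ (2 * r - 2 * K)) := by ring
        _ ≤ 2 ^ (2 * r) * ((D * (p : ℝ) ^ (n * (K - 1)) * En p n f)
            * lam ^ (2 * r - 2 * K)) := by
            apply mul_le_mul_of_nonneg_left _ (by positivity)
            apply mul_le_mul hl h2 (by positivity) (by positivity)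
        _ = 2 ^ (2 * r) * B := by rw [hBdef]; ring
    · simp only [if_neg h1, Finset.sum_const_zero]
      positivity
  calc ∑ g, (if S g ≤ lam then S g ^ (2 * r) else 0)
      ≤ ∑ g, (S g ^ 2 + ∑ i ∈ range J, (if (2 : ℝ) ^ i ≤ lam then
          (if (2 : ℝ) ^ i ≤ S g then ((2 : ℝ) ^ (i + 1)) ^ (2 * r) else 0) else 0)) :=
        Finset.sum_le_sum (fun g _ => hpt g)
    _ = En p n f + ∑ i ∈ range J, ∑ g, (if (2 : ℝ) ^ i ≤ lam then
          (if (2 : ℝ) ^ i ≤ S g then ((2 : ℝ) ^ (i + 1)) ^ (2 * r) else 0) else 0) := by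
        rw [Finset.sum_add_distrib, hE, Finset.sum_comm]
    _ ≤ B + ∑ _i ∈ range J, 2 ^ (2 * r) * B :=
        add_le_add hEB (Finset.sum_le_sum (fun i _ => hlev i))
    _ = (1 + (J : ℝ) * 2 ^ (2 * r)) * B := by
        rw [Finset.sum_const, Finset.card_range, nsmul_eq_mul]; ring
    _ ≤ ((1 + ((L : ℝ) + 1) * 2 ^ (2 * r)) * ((n : ℝ) + 1)) * B := by
        apply mul_le_mul_of_nonneg_right _ hB0
        have hJr : (J : ℝ) = ((L : ℝ) + 1) * n + 1 := by rw [hJ]; push_cast; ring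
        rw [hJr]
        have h2 : (0 : ℝ) ≤ 2 ^ (2 * r) := by positivity
        have hn : (0 : ℝ) ≤ n := Nat.cast_nonneg n
        have hL0 : (0 : ℝ) ≤ L := Nat.cast_nonneg L
        nlinarith [mul_nonneg hL0 h2, mul_nonneg hn h2, mul_nonneg hn hL0]
    _ = (1 + ((L : ℝ) + 1) * 2 ^ (2 * r)) * ((n : ℝ) + 1) * D * (p : ℝ) ^ (n * (K - 1))
          * lam ^ (2 * r - 2 * K) * En p n f := by
        rw [hBdef]; ring

end Pool.Agent.H65.CV
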