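import Pool.Agent.H11.CV.Targets

/-!
# Module PS: power sums determine tuples in distinct classes (board cv_modules, MP_e21eee_nt)
-/

set_option autoImplicit false

open Finset Polynomial

namespace Pool.Agent.H65.CV

open Pool.Agent.H11.CV

theorem ps : T_PS := by
  intro p d a x y hp hdp h1 hdist hpow
  have hpZ : Prime (p : ℤ) := Nat.prime_iff_prime_int.mp hp
  have hp0 : (p : ℤ) ≠ 0 := hpZ.ne_zero
  have : Fact p.Prime := ⟨hp⟩
  induction a with
  | zero => intro i; simp
  | succ a ih =>
    have ih' := ih (fun j hj hjd => (pow_dvd_pow (p : ℤ) (Nat.le_succ a)).trans (hpow j hj hjd))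
    rcases Nat.eq_zero_or_pos a with ha | ha
    · subst ha
      intro i
      rw [zero_add, pow_one]; exact h1 i
    · choose t ht using ih'
      -- t i is divisible by p
      have hsum : ∀ j : ℕ, j < d → (p : ℤ) ∣ ∑ i, x i ^ j * t i := by
        intro j hj
        have hj1 := hpow (j + 1) (by omega) (by omega)
        -- expansion
        have hexp : ∀ i, ∃ k : ℤ, y i ^ (j + 1) = x i ^ (j + 1)
            + ((j : ℤ) + 1) * x i ^ j * (-((p : ℤ) ^ a * t i)) + k * ((p : ℤ) ^ a * t i) ^ 2 := by
          intro i
          obtain ⟨k, hk⟩ := Polynomial.powAddExpansion (x i) (-((p : ℤ) ^ a * t i)) (j + 1)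
          refine ⟨k, ?_⟩
          have hy : y i = x i + (-((p : ℤ) ^ a * t i)) := by
            rw [← ht i]; ring
          rw [hy, hk]
          rw [Nat.add_sub_cancel]
          push_cast
          ring
        choose k hk using hexp
        have e1 : ∑ i, x i ^ (j + 1) - ∑ i, y i ^ (j + 1)
            = (p : ℤ) ^ a * (((j : ℤ) + 1) * ∑ i, x i ^ j * t i)
              - (p : ℤ) ^ (a + 1) * ((p : ℤ) ^ (a - 1) * ∑ i, k i * t i ^ 2) := by
          rw [← Finset.sum_sub_distrib, Finset.mul_sum, Finset.mul_sum, Finset.mul_sum,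
            Finset.mul_sum, ← Finset.sum_sub_distrib]
          apply Finset.sum_congr rfl
          intro i _
          rw [hk i]
          have e2 : (p : ℤ) ^ (a + 1) * ((p : ℤ) ^ (a - 1) * (k i * t i ^ 2))
              = k i * ((p : ℤ) ^ a * t i) ^ 2 := by
            have : (p : ℤ) ^ (a + 1) * (p : ℤ) ^ (a - 1) = ((p : ℤ) ^ a) ^ 2 := by
              rw [← pow_add, ← pow_mul]
              congr 1
              omega
            calc _ = ((p : ℤ) ^ (a + 1) * (p : ℤ) ^ (a - 1)) * (k i * t i ^ 2) := by ring
              _ = _ := by rw [this]; ring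
          rw [e2]
          ring
        rw [e1] at hj1
        have h2 : (p : ℤ) ^ (a + 1) ∣ (p : ℤ) ^ a * (((j : ℤ) + 1) * ∑ i, x i ^ j * t i) := by
          have := dvd_add hj1 (Dvd.intro ((p : ℤ) ^ (a - 1) * ∑ i, k i * t i ^ 2) rfl :
            (p : ℤ) ^ (a + 1) ∣ (p : ℤ) ^ (a + 1) * ((p : ℤ) ^ (a - 1) * ∑ i, k i * t i ^ 2))
          simpa using this
        rw [pow_succ] at h2
        have h3 : (p : ℤ) ∣ ((j : ℤ) + 1) * ∑ i, x i ^ j * t i :=
          (mul_dvd_mul_iff_left (pow_ne_zero a hp0)).mp h2
        rcases hpZ.dvd_or_dvd h3 with h4 | h4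
        · exfalso
          have h5 : p ∣ j + 1 := by exact_mod_cast h4
          have := Nat.le_of_dvd (Nat.succ_pos j) h5
          omega
        · exact h4
      have hinj : Function.Injective (fun i => (x i : ZMod p)) := by
        intro i j hij
        by_contra hne
        apply hdist i j hne
        have h : ((x i - x j : ℤ) : ZMod p) = 0 := by
          push_cast
          exact sub_eq_zero.mpr hij
        exact (ZMod.intCast_zmod_eq_zero_iff_dvd _ p).mp h
      have hdet : (Matrix.vandermonde (fun i => (x i : ZMod p))).det ≠ 0 :=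
        Matrix.det_vandermonde_ne_zero_iff.mpr hinj
      have hvec : Matrix.vecMul (fun i => (t i : ZMod p))
          (Matrix.vandermonde (fun i => (x i : ZMod p))) = 0 := by
        ext j
        simp only [Matrix.vecMul, dotProduct, Matrix.vandermonde_apply, Pi.zero_apply]
        have h := hsum j.val j.isLt
        have h' : ((∑ i, x i ^ (j : ℕ) * t i : ℤ) : ZMod p) = 0 :=
          (ZMod.intCast_zmod_eq_zero_iff_dvd _ p).mpr h
        push_cast at h'
        rw [← h']
        apply Finset.sum_congr rfl
        intro i _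
        ring
      have ht0 := Matrix.eq_zero_of_vecMul_eq_zero hdet hvec
      intro i
      have h := congrFun ht0 i
      simp only [Pi.zero_apply] at h
      have h' : (p : ℤ) ∣ t i := (ZMod.intCast_zmod_eq_zero_iff_dvd _ p).mp h
      rw [ht i, pow_succ]
      exact mul_dvd_mul_left _ h'

end Pool.Agent.H65.CV
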